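import Mathlib
import Pool.Agent.Q103.PF.Short

/-!
# Every finite group occurs (MP_ccbc6b_al, Q1)

Every finite group `H` is topologically isomorphic to a closed subgroup `D` with trivial rational core of the
profinite completion of a finitely generated, torsion-free amenable group.

Proof. 1. `L = N ⋊ ℤ`, `N` the Heisenberg type group on `ℤ^(ℤ) ⊕ ℤ^(ℤ) ⊕ ℤ` with the form `m ∑_{j ≤ i} x_i y_j`, is
finitely generated, torsion-free, solvable; the central element `w` is nontrivial modulo `m`, and `w^m` is trivial in
every finite quotient. 2. With `m = |H|` and the monomial action of `H` on `I = ⊔_c H/⟨c⟩` (every `f ≠ 1` fixes a place with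
a nontrivial component) the preimage `G` of `H` in the wreath product of `L` over `I` is torsion-free, and `H` embeds in its
profinite completion. 3. In the completion of `(G × G) ⋊ ℤ` (swap) the subgroup `H × 1` has trivial rational core.
-/

set_option autoImplicit false

namespace Pool.Agent.Results.MP_ccbc6b_al.FiniteGroups

/-- Every finite (discrete) group satisfies the condition of Q1. -/
theorem result (H : Type) [Group H] [Finite H] [TopologicalSpace H] [DiscreteTopology H] :
    QP.Occurs H := QP.main H

end Pool.Agent.Results.MP_ccbc6b_al.FiniteGroups
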